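import Pool.Agent.V7H76.MW.Fin
import Pool.Agent.V7H76.MP.Scale

/-!
Finiteness of the points of the preimages of closed subsets under generic forms.
-/

set_option autoImplicit false

open MvPolynomial Pool.Agent.W602.GT LinearAlgebra.Projectivization Pool.Agent.TH145.GH
open Pool.Agent.V7H76.MP

namespace Pool.Agent.V7H76.MW

/-- Finiteness of the points over a field generated by a finite set over `k0`. -/
theorem fin_points {k0 K : Type} [Field k0] [Field K] [Algebra k0 K] [IsAlgClosed K]
    [CharZero K] [IsAlgClosed k0] {n : ℕ} {A ι : Type} [DecidableEq ι] [Fintype ι]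
    {g : Fin (n + 1) → ι} [Fintype A] {dg : A → ι → ℕ}
    (W : Set (MvPolynomial (Fin (n + 1) ⊕ A) k0)) (hW : Cond g dg k0 W (fun _ => 2) 0)
    {F : A → MvPolynomial (Fin (n + 1)) K} (hF : ∀ a, MH g (F a) (dg a))
    (hind : AlgebraicIndependent k0 fun p : Cf g dg => (F p.1).coeff p.2.1)
    (T : Finset K) {l0 : ι → Fin (n + 1)} (hg0 : ∀ i, g (l0 i) = i) :
    {x : Fin (n + 1) → K | (∀ j, x j ∈ IntermediateField.adjoin k0 (T : Set K)) ∧
      (∀ i, x (l0 i) = 1) ∧
      ∀ G ∈ W, aeval (Sum.elim x fun a => eval x (F a)) G = 0}.Finite := by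
  classical
  obtain ⟨B, hB, K1, y, E, F1, DE, D, hK1, hc, hy, h1, h2, h3, h4, h5, h6, h7, h8⟩ :=
    exists_all hF hind T
  have : Finite B := hB
  have h9 := fin_all E hy h3 D h4 h5 h6 W hW hg0
  refine (h9.image fun x j => (x j : K)).subset ?_
  rintro x ⟨hx, hxl, hxW⟩
  choose e he hex using fun j => h8 (x j) (hx j)
  have hex' : (fun j => algebraMap K1 K (e j)) = x := funext hex
  have hev : ∀ a, algebraMap K1 K (eval e (map E.toSubfield.subtype (F1 a))) =
      eval x (F a) := by
    intro a
    rw [← h7, eval_map, eval_map]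
    have h10 := hom_eval₂ (F1 a) E.toSubfield.subtype (algebraMap K1 K) e
    rw [h10, hex']
  refine ⟨e, ⟨he, fun i => ?_, fun G hG => ?_⟩, funext hex⟩
  · apply Subtype.ext
    rw [hex, hxl]
    rfl
  · apply (algebraMap K1 K).injective
    have h10 := hom_eval₂ G (algebraMap k0 K1) (algebraMap K1 K)
      (Sum.elim e fun a => eval e (map E.toSubfield.subtype (F1 a)))
    have h11 := elim_comp (algebraMap K1 K) e fun a => eval e (map E.toSubfield.subtype (F1 a))
    simp only [hev] at h11
    rw [hex'] at h11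
    rw [h10, map_zero, h11]
    exact hxW G hG

/-- The equation is homogeneous, with the multidegrees `dg a` of the variables that stand for the
values of the forms. -/
def WH {n : ℕ} {A ι k : Type} [DecidableEq ι] [Fintype A] [CommSemiring k] (g : Fin (n + 1) → ι)
    (dg : A → ι → ℕ) (G : MvPolynomial (Fin (n + 1) ⊕ A) k) (e : ι → ℕ) : Prop :=
  ∀ u ∈ G.support, ∀ i,
    (∑ s, if g s = i then u (Sum.inl s) else 0) + ∑ a, u (Sum.inr a) * dg a i = e i

/-- The value of the equation at a scaled point. -/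
theorem aeval_scaleW {k K : Type} [Field k] [Field K] [Algebra k K] {n : ℕ} {A ι : Type}
    [DecidableEq ι] [Fintype ι] [Fintype A] {g : Fin (n + 1) → ι} {dg : A → ι → ℕ}
    {G : MvPolynomial (Fin (n + 1) ⊕ A) k}
    {e : ι → ℕ} (hG : WH g dg G e) (lam : ι → K) (x : Fin (n + 1) → K) (z : A → K) :
    aeval (Sum.elim (fun s => lam (g s) * x s) fun a => (∏ i, lam i ^ dg a i) * z a) G =
      (∏ i, lam i ^ e i) * aeval (Sum.elim x z) G := by
  simp only [aeval_def, eval₂_eq', Finset.mul_sum, Fintype.prod_sum_type, Sum.elim_inl,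
    Sum.elim_inr]
  refine Finset.sum_congr rfl fun u hu => ?_
  have h1 : ∏ s, (lam (g s) * x s) ^ u (Sum.inl s) =
      (∏ i, lam i ^ (∑ s, if g s = i then u (Sum.inl s) else 0)) *
        ∏ s, x s ^ u (Sum.inl s) := by
    simp only [mul_pow]
    rw [Finset.prod_mul_distrib]
    congr 1
    simp only [← Finset.prod_pow_eq_pow_sum]
    rw [Finset.prod_comm]
    refine Finset.prod_congr rfl fun s _ => ?_
    rw [Finset.prod_eq_single (g s)]
    · rw [if_pos rfl]
    · intro i _ hi
      rw [if_neg (Ne.symm hi), pow_zero]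
    · intro h; exact absurd (Finset.mem_univ _) h
  have h2 : ∏ a, ((∏ i, lam i ^ dg a i) * z a) ^ u (Sum.inr a) =
      (∏ i, lam i ^ (∑ a, u (Sum.inr a) * dg a i)) * ∏ a, z a ^ u (Sum.inr a) := by
    simp only [mul_pow]
    rw [Finset.prod_mul_distrib]
    congr 1
    simp only [← Finset.prod_pow_eq_pow_sum, ← Finset.prod_pow]
    rw [Finset.prod_comm]
    refine Finset.prod_congr rfl fun i _ => Finset.prod_congr rfl fun a _ => ?_
    rw [← pow_mul, mul_comm]
  have h3 : (∏ i, lam i ^ e i) =
      (∏ i, lam i ^ (∑ s, if g s = i then u (Sum.inl s) else 0)) *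
        ∏ i, lam i ^ (∑ a, u (Sum.inr a) * dg a i) := by
    rw [← Finset.prod_mul_distrib]
    refine Finset.prod_congr rfl fun i _ => ?_
    rw [← pow_add, hG u hu i]
  rw [h1, h2, h3]
  ring

variable {k K : Type} [Field k] [Field K] [IsAlgClosed K] [CharZero K] [Algebra k K] {n : ℕ}
  {A ι : Type} [DecidableEq ι] [Fintype ι] {g : Fin (n + 1) → ι} [Fintype A]
  {dg : A → ι → ℕ}

/-- The points over a finitely generated field. -/
theorem fin_pull
    (W : Set (MvPolynomial (Fin (n + 1) ⊕ A) (algebraicClosure k K)))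
    (hWh : ∀ G ∈ W, ∃ e, WH g dg G e)
    (hW : Cond g dg (algebraicClosure k K) W (fun _ => 2) 0)
    (F : A → MvPolynomial (Fin (n + 1)) K) (hF : ∀ a, MH g (F a) (dg a))
    (hind : AlgebraicIndependent k fun p : Cf g dg => (F p.1).coeff p.2.1) (T : Finset K) :
    (PtsM g (IntermediateField.adjoin (algebraicClosure k K) (T : Set K) : Set K)
      fun x => ∀ G ∈ W, aeval (Sum.elim x fun a => eval x (F a)) G = 0).Finite := by
  have hac : IsAlgClosed (algebraicClosure k K) := (algebraicClosure.isAlgClosure k K).isAlgClosed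
  refine pts_finite (IntermediateField.adjoin (algebraicClosure k K) (T : Set K)).toSubfield
    (fun x => ∀ G ∈ W, aeval (Sum.elim x fun a => eval x (F a)) G = 0) (fun lam x _ hx => ?_)
    fun l0 hg0 => ?_
  · intro G hG
    obtain ⟨e, he⟩ := hWh G hG
    have h1 := aeval_scaleW he lam x fun a => eval x (F a)
    have h2 : (fun a => (∏ i, lam i ^ dg a i) * eval x (F a)) =
        fun a => eval (fun s => lam (g s) * x s) (F a) := by
      funext a
      have h3 := aeval_scaleM (K := K) (hF a) lam x
      rw [aeval_eq_eval, aeval_eq_eval] at h3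
      exact h3.symm
    rw [h2, hx G hG, mul_zero] at h1
    exact h1
  · exact fin_points W hW hF hind.algebraicClosure T hg0

end Pool.Agent.V7H76.MW
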