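import Pool.Agent.V7H76.MW.Forms
import Pool.Agent.V7H76.MW.Pts

/-!
Varieties with points in the preimages of closed subsets under generic forms are of general type.
-/

set_option autoImplicit false

open MvPolynomial FF Pool.Agent.W603.LV Pool.Agent.W603.PV Pool.Agent.TH145.GH
open Pool.Agent.TH145.GF (exists_coord_basis)
open Pool.Agent.W602.GT Pool.Agent.TH145.MG Pool.Agent.V7H76.MP

namespace Pool.Agent.V7H76.MW

theorem exists_basisS {K L : Type} [Field K] [Field L] [Algebra K L] {n w : ℕ} {ι : Type}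
    {g : Fin (n + 1) → ι} (S : Set ι) (htr : Algebra.trdeg K L = w) {x' : Fin (n + 1) → L}
    (hgen : Algebra.IsAlgebraic (coordsS g S K x') L) :
    ∃ l : Fin w → Fin (n + 1), (IsTranscendenceBasis K fun i => x' (l i)) ∧
      ∀ j, g (l j) ∈ S := by
  classical
  obtain ⟨xS, hxS⟩ : ∃ xS : Fin (n + 1) → L, ∀ s, xS s = if g s ∈ S then x' s else 0 :=
    ⟨_, fun _ => rfl⟩
  have h1 : coordsS g S K x' ≤ coords K xS := by
    unfold coordsS
    rw [IntermediateField.adjoin_le_iff]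
    rintro z ⟨i, j, hij, hjS, hj, rfl⟩
    refine IntermediateField.subset_adjoin _ _ ⟨i, j, ?_, ?_⟩
    · rw [hxS, if_pos hjS]; exact hj
    · rw [hxS, hxS, if_pos hjS, if_pos (by rw [hij]; exact hjS)]
  obtain ⟨l, hl⟩ := exists_coord_basis htr (x := xS) (by
    exact ⟨fun z => Pool.Agent.TH145.MF.alg_mono (F1 := (coordsS g S K x').toSubfield)
      (F2 := (coords K xS).toSubfield) (fun z hz => h1 hz) (hgen.isAlgebraic z)⟩)
  have hlS : ∀ j, g (l j) ∈ S := by
    intro j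
    by_contra hcon
    have h2 := hl.1.transcendental j
    rw [hxS, if_neg hcon] at h2
    exact h2 (by
      have := isAlgebraic_algebraMap (R := K) (A := L) 0
      rwa [map_zero] at this)
  refine ⟨l, ?_, hlS⟩
  have h2 : (fun i => x' (l i)) = fun i => xS (l i) := by
    funext i
    rw [hxS, if_pos (hlS i)]
  rw [h2]
  exact hl

/-- Normalisation of the coordinates. -/
theorem exists_norm {k0 K L : Type} [Field k0] [Field K] [Field L] [Algebra k0 K] [Algebra K L]
    {n : ℕ} {A ι : Type} [DecidableEq ι] [Fintype ι]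
    {g : Fin (n + 1) → ι} [Fintype A] {dg : A → ι → ℕ}
    {W : Set (MvPolynomial (Fin (n + 1) ⊕ A) k0)} (hWh : ∀ G ∈ W, ∃ e, WH g dg G e)
    {F : A → MvPolynomial (Fin (n + 1)) K} (hF : ∀ a, MH g (F a) (dg a))
    {x : Fin (n + 1) → L} (hx0 : ∀ i, ∃ s, g s = i ∧ x s ≠ 0)
    (hxW : ∀ G ∈ W, aeval (Sum.elim x fun a => aeval x (F a)) (map (algebraMap k0 K) G) = 0) :
    ∃ (lam : ι → L) (x' : Fin (n + 1) → L) (l0 : ι → Fin (n + 1)), (∀ i, lam i ≠ 0) ∧
      (∀ s, x' s = lam (g s) * x s) ∧ (∀ i, g (l0 i) = i) ∧ (∀ i, x' (l0 i) = 1) ∧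
      (∀ (S : Set ι) (z : L), (∃ i j, g i = g j ∧ g j ∈ S ∧ x' j ≠ 0 ∧ z = x' i / x' j) ↔
        ∃ i j, g i = g j ∧ g j ∈ S ∧ x j ≠ 0 ∧ z = x i / x j) ∧
      (∀ i, ∀ s, lam i * x s = 0 ↔ x s = 0) ∧
      ∀ G ∈ W, aeval (Sum.elim x' fun a => aeval x' (F a)) (map (algebraMap k0 K) G) = 0 := by
  choose l0 hg0 hl0 using hx0
  obtain ⟨lam, hlam⟩ : ∃ lam : ι → L, ∀ i, lam i = (x (l0 i))⁻¹ := ⟨_, fun _ => rfl⟩
  have hlam0 : ∀ i, lam i ≠ 0 := fun i => by
    rw [hlam]
    exact inv_ne_zero (hl0 i)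
  refine ⟨lam, fun s => lam (g s) * x s, l0, hlam0, fun _ => rfl, hg0, fun i => ?_,
    fun S z => ⟨?_, ?_⟩, fun i s => mul_eq_zero_iff_left (hlam0 i), fun G hG => ?_⟩
  · dsimp only
    rw [hg0, hlam]
    exact inv_mul_cancel₀ (hl0 i)
  · rintro ⟨i, j, hij, hjS, hj, rfl⟩
    refine ⟨i, j, hij, hjS, fun h => hj (by dsimp only; rw [h, mul_zero]), ?_⟩
    dsimp only
    rw [hij, mul_div_mul_left _ _ (hlam0 _)]
  · rintro ⟨i, j, hij, hjS, hj, rfl⟩
    refine ⟨i, j, hij, hjS, mul_ne_zero (hlam0 _) hj, ?_⟩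
    dsimp only
    rw [hij, mul_div_mul_left _ _ (hlam0 _)]
  · obtain ⟨e, he⟩ := hWh G hG
    have he' : WH g dg (map (algebraMap k0 K) G) e := fun u hu =>
      he u (support_map_subset _ _ hu)
    have h1 := aeval_scaleW he' lam x fun a => aeval x (F a)
    have h2 : (fun a => (∏ i, lam i ^ dg a i) * aeval x (F a)) =
        fun a => aeval (fun s => lam (g s) * x s) (F a) := by
      funext a
      exact (aeval_scaleM (hF a) lam x).symm
    rw [h2, hxW G hG, mul_zero] at h1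
    exact h1

open scoped Classical in
/-- Varieties with points in the preimages of closed subsets under generic forms are of general
type. -/
theorem general_pull {k0 K L : Type} [Field k0] [Field K] [Field L] [Algebra k0 K] [Algebra K L]
    [IsAlgClosed K] [CharZero K] {n w : ℕ} {A ι : Type} [DecidableEq ι] [Fintype ι]
    {g : Fin (n + 1) → ι} [Fintype A] {dg : A → ι → ℕ}
    (W : Set (MvPolynomial (Fin (n + 1) ⊕ A) k0)) (hWh : ∀ G ∈ W, ∃ e, WH g dg G e) (S : Set ι)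
    (hW : Cond g dg k0 W (fun i => if i ∈ S then 2 else 1) w)
    (F : A → MvPolynomial (Fin (n + 1)) K) (hF : ∀ a, MH g (F a) (dg a))
    (hind : AlgebraicIndependent k0 fun p : Cf g dg => (F p.1).coeff p.2.1)
    (hw : 0 < w)
    (htr : Algebra.trdeg K L = w) (x : Fin (n + 1) → L) (hx0 : ∀ i, ∃ s, g s = i ∧ x s ≠ 0)
    (hgen : Algebra.IsAlgebraic (coordsS g S K x) L)
    (hxW : ∀ G ∈ W, aeval (Sum.elim x fun a => aeval x (F a)) (map (algebraMap k0 K) G) = 0) :
    GeneralType K L w := by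
  obtain ⟨lam, x', l0, -, -, hg0, hx1, hco, -, hxW'⟩ := exists_norm hWh hF hx0 hxW
  have hco' : coordsS g S K x' = coordsS g S K x := by
    unfold coordsS
    congr 1
    ext z
    exact hco S z
  rw [← hco'] at hgen
  obtain ⟨l, hl, hlS⟩ := exists_basisS S htr hgen
  obtain ⟨ω, hω, ⟨E, hE⟩, hreg⟩ := twisted (M := 1) W S le_rfl hW F hF hind hw htr hg0 hx1 hgen
    hxW'
  obtain ⟨lj, hlj⟩ : ∃ lj : Fin (w + 1) → Fin (n + 1), lj = Fin.cons (l0 (g (l ⟨0, hw⟩))) l :=
    ⟨_, rfl⟩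
  have hljS : ∀ j, g (lj j) ∈ S := by
    intro j
    refine Fin.cases ?_ (fun j => ?_) j
    · rw [hlj, Fin.cons_zero, hg0]
      exact hlS _
    · rw [hlj, Fin.cons_succ]
      exact hlS _
  refine ⟨htr, 1, one_pos, fun j Dd => x' (lj j) * ω Dd, fun j M Dd => ?_, fun Q hQ j => ?_,
    E, ?_, ?_⟩
  · dsimp only
    rw [hω]
    ring
  · have h1 := hreg (fun _ => lj j) (fun _ => hljS j) Q hQ
    simpa using h1
  · dsimp only
    rw [hlj, Fin.cons_zero, hx1, one_mul]
    exact hE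
  · have h1 : (fun i : Fin w => (x' (lj i.succ) * ω E) / (x' (lj 0) * ω E)) =
        fun i => x' (l i) := by
      funext i
      rw [hlj, Fin.cons_succ, Fin.cons_zero, hx1, one_mul, mul_div_cancel_right₀ _ hE]
    rw [h1]
    exact hl.1

/-- The condition in terms of the codimension of the fibres. -/
theorem cond_of_codim {k : Type} [Field k] {n m w c : ℕ} {A ι : Type} [DecidableEq ι]
    [Fintype A] {g : Fin (n + 1) → ι} {dg : A → ι → ℕ} {μ N : ι → ℕ}
    (V : Set (MvPolynomial (Fin (n + 1)) k)) (hV : DimLEM g k V m μ)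
    (W : Set (MvPolynomial (Fin (n + 1) ⊕ A) k)) (hVW : ∀ f ∈ V, rename Sum.inl f ∈ W)
    (hc : ∀ (Ω : Type) [Field Ω] [Algebra k Ω] (x : Fin (n + 1) → Ω) (z : A → Ω),
      (∀ i, ∃ s, g s = i ∧ x s = 1) → (∀ G ∈ W, aeval (Sum.elim x z) G = 0) →
      Algebra.trdeg (IntermediateField.adjoin k (Set.range x))
        (IntermediateField.adjoin (IntermediateField.adjoin k (Set.range x)) (Set.range z)) + c ≤
          (Fintype.card A : Cardinal))
    (hd : ∀ B : Finset A, B.card = c → ∀ i, m + μ i + N i ≤ ∑ a ∈ B, (dg a i + 1) + w) :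
    Cond g dg k W N w := by
  classical
  intro Ω _ _ x z hx hxz B hB i
  choose l0 hg0 hl0 using hx
  have hV' := hV Ω x (fun i => ⟨l0 i, hg0 i, by rw [hl0]; exact one_ne_zero⟩) (fun f hf => by
    have h1 := hxz _ (hVW f hf)
    rw [aeval_rename] at h1
    exact h1)
  rw [coordsM_eq hg0 hl0] at hV'
  have h1 := hV'.2 i
  rw [coords_bl (hg0 i) (hl0 i)] at h1
  -- the number of elements of `B`
  have h2 := hc Ω x z (fun i => ⟨l0 i, hg0 i, hl0 i⟩) hxz
  obtain ⟨R, hR⟩ : ∃ R, R = IntermediateField.adjoin k (Set.range x) := ⟨_, rfl⟩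
  rw [← hR] at h2 hB hV' ⊢
  have h3 : AlgebraicIndependent R fun a : {a // a ∉ B} =>
      (⟨z a, IntermediateField.subset_adjoin _ _ ⟨a, rfl⟩⟩ :
        IntermediateField.adjoin R (Set.range z)) := by
    rw [← (IntermediateField.adjoin R (Set.range z)).val.algebraicIndependent_iff
      (RingHom.injective _)]
    exact hB
  have h4 := h3.cardinalMk_le_trdeg
  have h5 : Fintype.card {a // a ∉ B} = Fintype.card A - B.card := by
    rw [Fintype.card_subtype_compl, Fintype.card_coe]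
  rw [Cardinal.mk_fintype, h5] at h4
  have h6 : c ≤ B.card := by
    have h7 : ((Fintype.card A - B.card + c : ℕ) : Cardinal) ≤ Fintype.card A := by
      rw [Nat.cast_add]
      exact (add_le_add_left h4 _).trans h2
    have h8 := Nat.cast_le.1 h7
    have h9 := Finset.card_le_univ B
    omega
  obtain ⟨B', hB', hB'c⟩ := Finset.exists_subset_card_eq h6
  have h7 := hd B' hB'c i
  have h8 : ∑ a ∈ B', (dg a i + 1) ≤ ∑ a ∈ B, (dg a i + 1) :=
    Finset.sum_le_sum_of_subset hB'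
  have h9 : ((m + μ i + N i : ℕ) : Cardinal) ≤ ((∑ a ∈ B, (dg a i + 1) + w : ℕ) : Cardinal) :=
    Nat.cast_le.2 (by omega)
  refine le_trans ?_ h9
  rw [Nat.cast_add, Nat.cast_add]
  exact add_le_add_left (add_le_add hV'.1 h1) _

end Pool.Agent.V7H76.MW
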