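import Pool.Agent.V7H76.MW.Indep
import Pool.Agent.V7H76.MP.Ineq

/-!
The height inequality for the preimages of closed subsets under generic forms.
-/

set_option autoImplicit false

open MvPolynomial FF Pool.Agent.W603.LV Pool.Agent.W603.PV Pool.Agent.TH145.GH
open Pool.Agent.TH145.GC (Ev ge_det exists_minor)
open Pool.Agent.TH145.GE (ev dF_ev)
open Pool.Agent.V7H76.MP Pool.Agent.W602.GT

namespace Pool.Agent.V7H76.MW

/-- The condition on the closed set `W` of pairs `(x, z)`, where `x` is a point of the product of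
projective spaces and the `z a` are values of forms: if there is a point of `W` over a field
extension such that the `z a`, `a ∉ B`, are algebraically independent over the field generated by
the (normalised) coordinates `x`, then the degrees of the forms with indices in `B` are large with
respect to the dimensions of the closure of `x` and of its projections. -/
def Cond {n : ℕ} {A ι : Type} (g : Fin (n + 1) → ι) (dg : A → ι → ℕ)
    (k : Type) [Field k] (W : Set (MvPolynomial (Fin (n + 1) ⊕ A) k)) (N : ι → ℕ) (w : ℕ) : Prop :=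
  ∀ (Ω : Type) [Field Ω] [Algebra k Ω] (x : Fin (n + 1) → Ω) (z : A → Ω),
    (∀ i, ∃ s, g s = i ∧ x s = 1) → (∀ G ∈ W, aeval (Sum.elim x z) G = 0) →
    ∀ B : Finset A, (AlgebraicIndependent (IntermediateField.adjoin k (Set.range x))
      fun a : {a // a ∉ B} => z a) → ∀ i,
    Algebra.trdeg k (IntermediateField.adjoin k (Set.range x)) +
      Algebra.trdeg k (IntermediateField.adjoin k (x '' {s | g s = i})) + (N i : ℕ) ≤
        ((∑ a ∈ B, (dg a i + 1) + w : ℕ) : Cardinal)

section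

variable {k0 L : Type} [Field k0] [Field L] [Algebra k0 L] {n : ℕ} {A X ι : Type}
  [DecidableEq ι] {g : Fin (n + 1) → ι} {dg : A → ι → ℕ}
  {D : A → (Fin (n + 1) →₀ ℕ) → Derivation ℤ L L} {E : X → Derivation ℤ L L}

omit [DecidableEq ι] in
theorem coordsM_eq {x : Fin (n + 1) → L} {l0 : ι → Fin (n + 1)} (hg : ∀ i, g (l0 i) = i)
    (hx0 : ∀ i, x (l0 i) = 1) : coordsM g k0 x = IntermediateField.adjoin k0 (Set.range x) := by
  apply le_antisymm
  · unfold coordsM
    rw [IntermediateField.adjoin_le_iff]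
    rintro z ⟨i, j, -, -, rfl⟩
    exact div_mem (IntermediateField.subset_adjoin _ _ ⟨i, rfl⟩)
      (IntermediateField.subset_adjoin _ _ ⟨j, rfl⟩)
  · rw [IntermediateField.adjoin_le_iff]
    rintro _ ⟨s, rfl⟩
    refine IntermediateField.subset_adjoin _ _ ⟨s, l0 (g s), (hg _).symm, ?_, ?_⟩
    · rw [hx0]; exact one_ne_zero
    · rw [hx0, div_one]

theorem coords_bl {x : Fin (n + 1) → L} {i : ι} {l0 : Fin (n + 1)} (hg : g l0 = i)
    (hx0 : x l0 = 1) :
    coords k0 (bl g i x) = IntermediateField.adjoin k0 (x '' {s | g s = i}) := by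
  have hb : ∀ s, bl g i x s ∈ IntermediateField.adjoin k0 (x '' {s | g s = i}) := by
    intro s
    unfold bl
    split_ifs with h
    · exact IntermediateField.subset_adjoin _ _ ⟨s, h, rfl⟩
    · exact zero_mem _
  apply le_antisymm
  · unfold coords
    rw [IntermediateField.adjoin_le_iff]
    rintro z ⟨i', j, -, rfl⟩
    exact div_mem (hb _) (hb _)
  · rw [IntermediateField.adjoin_le_iff]
    rintro _ ⟨s, hs, rfl⟩
    have hs' : g s = i := hs
    have h0 : bl g i x l0 = 1 := by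
      unfold bl
      rw [if_pos hg, hx0]
    refine IntermediateField.subset_adjoin _ _ ⟨s, l0, ?_, ?_⟩
    · rw [h0]; exact one_ne_zero
    · rw [h0, div_one]
      unfold bl
      rw [if_pos hs']

/-- The numbers in the height inequality. -/
theorem exists_nums [CharZero L] [Fintype ι] [Fintype A]
    (hDk : ∀ a I (r : k0), D a I (algebraMap k0 L r) = 0)
    (hEk : ∀ ξ (r : k0), E ξ (algebraMap k0 L r) = 0)
    {H : A → MvPolynomial (Fin (n + 1)) L} (hE : ∀ ξ a u, E ξ ((H a).coeff u) = 0)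
    (hD : DualE g H dg D fun _ _ => 0) {x : Fin (n + 1) → L}
    {l0 : ι → Fin (n + 1)} (hg : ∀ i, g (l0 i) = i) (hx0 : ∀ i, x (l0 i) = 1)
    {b : Finset (Ix ι X n A ⊕ A)} {B : Finset A} (hB : ∀ a, a ∈ B ↔ Sum.inr a ∈ b)
    (hsp : ∀ r, vv g dg D E x (base dg l0) r ∈
        Submodule.span L (Set.range fun i : b => vv g dg D E x (base dg l0) i))
    {W : Set (MvPolynomial (Fin (n + 1) ⊕ A) k0)} {N : ι → ℕ} {w : ℕ} (hW : Cond g dg k0 W N w)
    (hxW : ∀ G ∈ W, aeval (Sum.elim x fun a => eval x (H a)) G = 0) :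
    ∃ (m : ℕ) (μ : ι → ℕ), Module.finrank L (Full g dg D E x) ≤ m + Fintype.card ι ∧
      (∀ i, Module.finrank L ((Full g dg D E x).map (blkL L g i)) ≤ μ i + 1) ∧
      ∀ i, m + μ i + N i ≤ ∑ a ∈ B, dg a i + B.card + w := by
  have hI0 : ∀ a, mon x (base dg l0 a) ≠ 0 := fun a => by
    rw [mon_base]
    exact Finset.prod_ne_zero_iff.2 fun i _ => pow_ne_zero _ (by rw [hx0]; exact one_ne_zero)
  have h1 := indep_values hDk hEk hE hD (fun a => mdeg_base g dg hg a) hI0 hg hx0 hB hsp
  have h2 := hW L x (fun a => eval x (H a)) (fun i => ⟨l0 i, hg i, hx0 i⟩) hxW B h1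
  have h3 : ∀ i, ∃ m μ : ℕ, Algebra.trdeg k0 (IntermediateField.adjoin k0 (Set.range x)) = m ∧
      Algebra.trdeg k0 (IntermediateField.adjoin k0 (x '' {s | g s = i})) = μ := by
    intro i
    have h4 := (h2 i).trans_lt Cardinal.natCast_lt_aleph0
    have h5 := Cardinal.add_lt_aleph0_iff.1 h4
    have h6 := Cardinal.add_lt_aleph0_iff.1 h5.1
    obtain ⟨m, hm⟩ := Cardinal.lt_aleph0.1 h6.1
    obtain ⟨μ, hμ⟩ := Cardinal.lt_aleph0.1 h6.2
    exact ⟨m, μ, hm, hμ⟩
  choose m' μ hm' hμ using h3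
  obtain ⟨m, hm⟩ : ∃ m : ℕ, Algebra.trdeg k0 (IntermediateField.adjoin k0 (Set.range x)) = m :=
    ⟨_, hm' (g 0)⟩
  have h2' := full_le_tanM (g := g) (dg := dg) (D := D) (E := E) hDk hEk x
  refine ⟨m, μ, (Submodule.finrank_mono h2').trans (tanM_rank hg hx0 ?_), fun i =>
    (Submodule.finrank_mono (Submodule.map_mono h2')).trans (tanM_block (hg i) (hx0 i) ?_),
    fun i => ?_⟩
  · rw [coordsM_eq hg hx0, hm]
  · rw [coords_bl (hg i) (hx0 i), hμ]
  · have h4 := h2 i
    rw [hm, hμ, ← Nat.cast_add, ← Nat.cast_add, Nat.cast_le, Finset.sum_add_distrib,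
      Finset.sum_const, smul_eq_mul, mul_one] at h4
    exact h4

end

section

variable {k K : Type} [Field k] [Field K] [Algebra k K] {n : ℕ} {A ι : Type} [DecidableEq ι]
    {g : Fin (n + 1) → ι}
    {F : A → MvPolynomial (Fin (n + 1)) K} {dg : A → ι → ℕ}
    {D : A → (Fin (n + 1) →₀ ℕ) → Derivation ℤ K K} {e : Place k K → ℤ}
    [IsAlgClosed k] [CharZero k] [IsFF k K]

/-- The height inequality. -/
theorem ineq [Fintype ι] (hdat : Data k g F dg D e) [Fintype A] {k0 : Type} [Field k0]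
    [Algebra k0 K] [CharZero K] (hDk : ∀ a I (r : k0), D a I (algebraMap k0 K r) = 0)
    {W : Set (MvPolynomial (Fin (n + 1) ⊕ A) k0)} (hW : Cond g dg k0 W (fun _ => 2) 0)
    {x : Fin (n + 1) → K} {l0 : ι → Fin (n + 1)} (hg : ∀ i, g (l0 i) = i)
    (hx0 : ∀ i, x (l0 i) = 1)
    (hxW : ∀ G ∈ W, aeval (Sum.elim x fun a => eval x (F a)) G = 0) (i0 : ι) :
    pht k (bl g i0 x) ≤ ∑ᶠ P, (n + 1) * e P := by
  classical
  have he : ∀ i, x (l0 i) ≠ 0 := fun i => by rw [hx0]; exact one_ne_zero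
  obtain ⟨b, hbV, hbi, hspan, hsp, hcard⟩ := exists_rows (E := noE K) (dg := dg) (D := D) hg he
    (indep_pos hg he _)
  obtain ⟨B, hB⟩ : ∃ B : Finset A, ∀ a, a ∈ B ↔ Sum.inr a ∈ b :=
    ⟨Finset.univ.filter fun a => Sum.inr a ∈ b, fun a => by simp⟩
  obtain ⟨m, μ, hrk, hblk, hdim⟩ := exists_nums hDk (E := noE K) (fun z => z.elim)
    (fun z => z.elim) (hdat.dual.dualE hdat.hom) hg hx0 hB hsp hW hxW
  obtain ⟨τ, hτ⟩ := exists_minor _ hbi
  have hdet : (mx g dg D (noE K) x (base dg l0) b τ).det ≠ 0 := by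
    unfold mx
    convert hτ
  have hbp : ∀ i, Sum.inl (Sum.inl i) ∈ b := fun i => hbV _ (Or.inl ⟨i, rfl⟩)
  have htot : ∀ i, tot Empty g b τ i + 1 ≤ ∑ a ∈ B, dg a i := by
    intro i
    have h1 := tot_le (fun a => mdeg_base g dg hg a) τ hB hbV hdet (hcard ▸ hrk) i (hblk i)
    have h2 := hdim i
    rw [Fintype.card_eq_zero (α := Empty)] at h1
    omega
  have hbn : b.card ≤ n + 1 := by
    rw [← hcard]
    have := Submodule.finrank_le (Full g dg D (noE K) x)
    rwa [Module.finrank_fin_fun] at this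
  refine sum_localM (k := k) (g := g) (x := x) (Θ := (mx g dg D (noE K) x (base dg l0) b τ).det /
    ∏ a ∈ B, mon x (base dg l0 a)) (a := fun i => (∑ a ∈ B, dg a i : ℕ) -
      (tot Empty g b τ i : ℤ))
    (fun i h0 => bl_ne (hg i) (he i) (congrFun h0 _)) (fun i => ?_) ?_ (fun P => ?_) i0
  · have := htot i
    omega
  · refine hdat.fin.subset fun P hP => ?_
    intro h0
    apply hP
    rw [h0, mul_zero]
  · have h1 := ord_theta P hg he τ hB hbp hspan hdet (N := -((n + 1) * e P))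
      (fun x' e1 hx' hge1 hdet' => by
        have h1 := (ge_det P (mx g dg D (noE K) x' (base dg e1) b τ) (c := e P)
          fun r j => hdat.ge_vv P hx' (fun a => mdeg_base g dg hge1 a) _ _).resolve_left hdet'
        rw [Fintype.card_coe] at h1
        have h2 : (b.card : ℤ) * e P ≤ (n + 1) * e P :=
          mul_le_mul_of_nonneg_right (by exact_mod_cast hbn) (hdat.e_nonneg P)
        linarith)
    simp only [neg_sub]
    rw [sub_eq_add_neg]
    exact h1

end

end Pool.Agent.V7H76.MW
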