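import Pool.Agent.V7H76.MW.Gen
import Pool.Agent.N111.GI.Gt

/-!
Images of small degree of the subvarieties of the preimages of closed subsets under generic forms.
-/

set_option autoImplicit false

open MvPolynomial FF Pool.Agent.W603.LV Pool.Agent.W603.PV Pool.Agent.TH145.GH
open Pool.Agent.W602.GT Pool.Agent.TH145.MG Pool.Agent.V7H76.MP
open Pool.Agent.N111.GI (SecAt gt_of)

namespace Pool.Agent.V7H76.MW

theorem logAt_of_regAt {K L : Type} [Field K] [Field L] [Algebra K L] {w : ℕ} {P : Place K L}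
    {ω : (Fin w → Derivation K L L) → L} (h : RegAt P ω) : LogAt P ω := by
  intro D hD
  refine h D fun i f hf => ?_
  by_cases hf0 : f = 0
  · rw [hf0, map_zero]
    exact P.reg_zero
  · have h1 := P.reg_mul hf (hD i f)
    rwa [mul_div_cancel₀ _ hf0] at h1

open scoped Classical in
/-- Images of small degree are of general type. -/
theorem img_pull {k0 K M L : Type} [Field k0] [Field K] [Field M] [Field L] [Algebra k0 K]
    [Algebra K M] [Algebra K L] [Algebra M L] [IsScalarTower K M L] [FiniteDimensional M L]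
    [Algebra.EssFiniteType K M]
    [IsAlgClosed K] [CharZero K] {n w r : ℕ} {A ι : Type} [DecidableEq ι] [Fintype ι]
    {g : Fin (n + 1) → ι} [Fintype A] {dg : A → ι → ℕ}
    (W : Set (MvPolynomial (Fin (n + 1) ⊕ A) k0)) (hWh : ∀ G ∈ W, ∃ e, WH g dg G e) (S : Set ι)
    (hW : Cond g dg k0 W (fun i => if i ∈ S then 2 * r else 1) w)
    (F : A → MvPolynomial (Fin (n + 1)) K) (hF : ∀ a, MH g (F a) (dg a))
    (hind : AlgebraicIndependent k0 fun p : Cf g dg => (F p.1).coeff p.2.1)
    (hw : 0 < w) (htr : Algebra.trdeg K M = w) (hr : Module.finrank M L ≤ r)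
    (x : Fin (n + 1) → L) (hx0 : ∀ i, ∃ s, g s = i ∧ x s ≠ 0)
    (hgen : Algebra.IsAlgebraic (coordsS g S K x) L)
    (hgenM : IntermediateField.adjoin M
      {z | ∃ i j, g i = g j ∧ g j ∈ S ∧ x j ≠ 0 ∧ z = x i / x j} = ⊤)
    (hxW : ∀ G ∈ W, aeval (Sum.elim x fun a => aeval x (F a)) (map (algebraMap k0 K) G) = 0) :
    GeneralType K M w := by
  have hess : Algebra.EssFiniteType K L := Algebra.EssFiniteType.comp K M L
  have hpos : 0 < Module.finrank M L := Module.finrank_pos
  have htr' : Algebra.trdeg K L = w := Pool.Agent.Y172.trdeg_up (K := M) htr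
  obtain ⟨lam, x', l0, -, -, hg0, hx1, hco, -, hxW'⟩ := exists_norm hWh hF hx0 hxW
  have hco' : coordsS g S K x' = coordsS g S K x := by
    unfold coordsS
    congr 1
    ext z
    exact hco S z
  rw [← hco'] at hgen
  obtain ⟨l, -, hlS⟩ := exists_basisS S htr' hgen
  have hN : (fun i => if i ∈ S then 2 * r else 1) =
      fun i => if i ∈ S then (2 * r - 1) + 1 else 1 := by
    funext i
    congr 1
    omega
  rw [hN] at hW
  obtain ⟨ω, hω, hE, hreg⟩ := twisted (M := 2 * r - 1) W S (by omega) hW F hF hind hw htr' hg0 hx1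
    hgen hxW'
  obtain ⟨i0, hi0⟩ : ∃ i0, i0 ∈ S := ⟨_, hlS ⟨0, hw⟩⟩
  obtain ⟨y, hy⟩ : ∃ y : Fin (n + 1) → L, ∀ s, y s = if g s ∈ S then x' s else 1 :=
    ⟨_, fun _ => rfl⟩
  have hy0 : y (l0 i0) = 1 := by
    rw [hy, if_pos (by rw [hg0]; exact hi0), hx1]
  have hsub : ∀ (R : Subfield L), (∀ s, y s ∈ R) → ∀ z : L,
      (∃ i j, g i = g j ∧ g j ∈ S ∧ x' j ≠ 0 ∧ z = x' i / x' j) → z ∈ R := by
    rintro R hR z ⟨i, j, hij, hjS, -, rfl⟩
    have h1 := hR i
    have h2 := hR j
    rw [hy, if_pos (by rw [hij]; exact hjS)] at h1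
    rw [hy, if_pos hjS] at h2
    exact div_mem h1 h2
  refine Pool.Agent.W602.GT.general_of_log ?_
  refine gt_of (x := y) (j0 := l0 i0) (BL := fun _ => False) (m := 2 * r - 1) htr
    (fun _ _ _ _ h => h) hy0 ?_ hω (fun f P hP => ?_) (fun τ => ?_) hE (by omega)
  · rw [eq_top_iff, ← hgenM, IntermediateField.adjoin_le_iff]
    intro z hz
    exact hsub (IntermediateField.adjoin M (Set.range y)).toSubfield
      (fun s => IntermediateField.subset_adjoin _ _ ⟨s, rfl⟩) z ((hco S z).2 hz)
  · obtain ⟨f', hf'⟩ : ∃ f' : Fin (2 * r - 1) → Fin (n + 1), ∀ j, f' j =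
      if g (f j) ∈ S then f j else l0 i0 := ⟨_, fun _ => rfl⟩
    have h1 : ∀ j, g (f' j) ∈ S := fun j => by
      rw [hf']
      split_ifs with h
      · exact h
      · rw [hg0]; exact hi0
    have h2 : ∀ j, y (f j) = x' (f' j) := fun j => by
      rw [hy, hf']
      split_ifs with h
      · rfl
      · exact (hx1 i0).symm
    have h3 := hreg f' h1 P hP
    simp only [← h2] at h3
    exact ⟨logAt_of_regAt h3, fun _ => h3⟩
  · have h1 : coordsS g S K x' ≤ IntermediateField.adjoin K (Set.range y) := by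
      unfold coordsS
      rw [IntermediateField.adjoin_le_iff]
      intro z hz
      exact hsub (IntermediateField.adjoin K (Set.range y)).toSubfield
        (fun s => IntermediateField.subset_adjoin _ _ ⟨s, rfl⟩) z hz
    have h2 := Pool.Agent.W602.GT.alg_mono h1 hgen
    exact h2.isAlgebraic τ

/-- The fibres of the closed set `W` over the points `x` of the product of projective spaces have
codimension at least `c`: for every point `(x, z)` of `W` over an extension of `k`, where one
coordinate of `x` in each block is `1`, the transcendence degree of `k (x, z)` over `k (x)` is at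
most the number of the coordinates `z_a` minus `c`. -/
def FibreCodim {n : ℕ} {A ι : Type} [Fintype A] (g : Fin (n + 1) → ι) (k : Type) [Field k]
    (W : Set (MvPolynomial (Fin (n + 1) ⊕ A) k)) (c : ℕ) : Prop :=
  ∀ (Ω : Type) [Field Ω] [Algebra k Ω] (x : Fin (n + 1) → Ω) (z : A → Ω),
    (∀ i, ∃ s, g s = i ∧ x s = 1) → (∀ G ∈ W, aeval (Sum.elim x z) G = 0) →
    Algebra.trdeg (IntermediateField.adjoin k (Set.range x))
      (IntermediateField.adjoin (IntermediateField.adjoin k (Set.range x)) (Set.range z)) + c ≤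
        (Fintype.card A : Cardinal)

end Pool.Agent.V7H76.MW
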