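import Pool.Agent.V7H76.MW.Rows
import Pool.Agent.V7H76.MP.Rank

/-!
Algebraic independence of the values of the forms without rows in the determinant.
-/

set_option autoImplicit false

open MvPolynomial FF Pool.Agent.W603.LV Pool.Agent.W603.PV Pool.Agent.TH145.GH
open Pool.Agent.TH145.GC (Ev der_zero_of_alg)
open Pool.Agent.TH145.GE (ev dF_ev)
open Pool.Agent.V7H76.MP

namespace Pool.Agent.V7H76.MW

section

variable {k0 L : Type} [Field k0] [Field L] [Algebra k0 L] {n : ℕ} {A X ι : Type}
  [DecidableEq ι]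

/-- A criterion for algebraic independence. -/
theorem algInd_of_der [CharZero L] (R : IntermediateField k0 L) {I : Type} (z : I → L) (μ : I → L)
    (hμ : ∀ i, μ i ≠ 0) (Δ : I → Derivation ℤ L L) (hR : ∀ i, ∀ r ∈ R, Δ i r = 0)
    (hii : ∀ i, Δ i (z i) = μ i) (hij : ∀ i j, i ≠ j → Δ i (z j) = 0) :
    AlgebraicIndependent R z := by
  refine algebraicIndependent_of_finite_type' (algebraMap R L).injective fun t _ _ i hi halg => ?_
  obtain ⟨Z, hZ⟩ : ∃ Z : Subfield L, ∀ w, w ∈ Z ↔ Δ i w = 0 := by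
    exact ⟨{ carrier := {w | Δ i w = 0}
             one_mem' := (Δ i).map_one_eq_zero
             zero_mem' := map_zero _
             add_mem' := fun {a b} ha hb => by
               rw [Set.mem_ofPred_eq] at ha hb ⊢
               rw [map_add, ha, hb, add_zero]
             mul_mem' := fun {a b} ha hb => by
               rw [Set.mem_ofPred_eq] at ha hb ⊢
               rw [(Δ i).leibniz, ha, hb, smul_zero, smul_zero, add_zero]
             neg_mem' := fun {a} ha => by
               change Δ i (-a) = 0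
               rw [map_neg, show Δ i a = 0 from ha, neg_zero]
             inv_mem' := fun a ha => by
               rw [Set.mem_ofPred_eq] at ha ⊢
               rw [Derivation.leibniz_inv, ha, smul_zero] }, fun w => Iff.rfl⟩
  have hsub : ∀ w ∈ Algebra.adjoin R (z '' t), w ∈ Z := by
    intro w hw
    induction hw using Algebra.adjoin_induction with
    | mem w hw =>
      obtain ⟨j, hj, rfl⟩ := hw
      rw [hZ]
      exact hij i j fun h => hi (h ▸ hj)
    | algebraMap r =>
      rw [hZ]
      exact hR i r r.2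
    | add a b _ _ ha hb => exact add_mem ha hb
    | mul a b _ _ ha hb => exact mul_mem ha hb
  have h1 : IsAlgebraic Z (z i) := by
    obtain ⟨p, hp0, hp⟩ := halg
    obtain ⟨φ, hφ⟩ : ∃ φ : Algebra.adjoin R (z '' t) →+* Z, ∀ w, (φ w : L) = w :=
      ⟨{ toFun := fun w => ⟨w, hsub w w.2⟩
         map_one' := rfl
         map_mul' := fun _ _ => rfl
         map_zero' := rfl
         map_add' := fun _ _ => rfl }, fun _ => rfl⟩
    refine ⟨p.map φ, ?_, ?_⟩
    · intro h
      apply hp0
      refine Polynomial.map_injective φ (fun a b hab => ?_) (by rw [h, Polynomial.map_zero])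
      apply Subtype.ext
      rw [← hφ, ← hφ, hab]
    · rw [Polynomial.aeval_def] at hp
      rw [Polynomial.aeval_def, Polynomial.eval₂_map, ← hp]
      congr 1
      ext w
      exact hφ w
  have h2 := der_zero_of_alg (Δ i) Z (fun w hw => (hZ w).1 hw) h1
  rw [hii] at h2
  exact hμ i h2

variable {g : Fin (n + 1) → ι} {dg : A → ι → ℕ} {D : A → (Fin (n + 1) →₀ ℕ) → Derivation ℤ L L}
  {E : X → Derivation ℤ L L}

/-- The pairs of vectors and changes of the forms that come from derivations over `k0`. -/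
def PQ (g : Fin (n + 1) → ι) (k0 : Type) [Field k0] [Algebra k0 L] (x : Fin (n + 1) → L)
    (H : A → MvPolynomial (Fin (n + 1)) L) :
    Submodule L ((Fin (n + 1) → L) × (A → L)) where
  carrier := {p | ∃ (c : ι → L) (Δ : Derivation ℤ L L), (∀ r : k0, Δ (algebraMap k0 L r) = 0) ∧
    (∀ s, p.1 s = c (g s) * x s + Δ (x s)) ∧
    ∀ a, Δ (eval x (H a)) = p.2 a + dF (H a) x (fun s => Δ (x s))}
  add_mem' := by
    rintro p q ⟨c, Δ, hΔ, h1, h2⟩ ⟨c', Δ', hΔ', h3, h4⟩
    refine ⟨c + c', Δ + Δ', fun r => by rw [Derivation.add_apply, hΔ, hΔ', add_zero],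
      fun s => ?_, fun a => ?_⟩
    · rw [Prod.fst_add, Pi.add_apply, h1, h3, Derivation.add_apply, Pi.add_apply]
      ring
    · have h5 : (fun s => (Δ + Δ') (x s)) = (fun s => Δ (x s)) + fun s => Δ' (x s) := rfl
      rw [Prod.snd_add, Pi.add_apply, h5, dF_add, Derivation.add_apply, h2, h4]
      ring
  zero_mem' := ⟨0, 0, fun _ => rfl, fun s => by simp, fun a => by simp [dF]⟩
  smul_mem' := by
    rintro μ p ⟨c, Δ, hΔ, h1, h2⟩
    refine ⟨μ • c, μ • Δ, fun r => by rw [Derivation.smul_apply, hΔ, smul_zero],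
      fun s => ?_, fun a => ?_⟩
    · rw [Prod.smul_fst, Pi.smul_apply, h1, Derivation.smul_apply, Pi.smul_apply, smul_eq_mul,
        smul_eq_mul, smul_eq_mul]
      ring
    · have h5 : (fun s => (μ • Δ) (x s)) = μ • fun s => Δ (x s) := rfl
      rw [Prod.smul_snd, Pi.smul_apply, h5, dF_smul, Derivation.smul_apply, h2, smul_eq_mul,
        smul_eq_mul]
      ring

variable {H : A → MvPolynomial (Fin (n + 1)) L}

open scoped Classical in
theorem Ev_mem (hDk : ∀ a I (r : k0), D a I (algebraMap k0 L r) = 0)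
    (hD : DualE g H dg D fun _ _ => 0) (x : Fin (n + 1) → L) {a : A} {I : Fin (n + 1) →₀ ℕ}
    (hI : mdeg g I = dg a) : (Ev D x a I, Pi.single a (mon x I)) ∈ PQ g k0 x H := by
  refine ⟨0, D a I, hDk a I, fun s => by simp [Ev], fun b => ?_⟩
  rw [chainM, hD a b I hI x, Nat.cast_zero, zero_mul, sub_zero]
  congr 1
  by_cases h : a = b
  · subst h
    rw [if_pos rfl]
    simp
  · rw [if_neg h]
    simp [Ne.symm h]

open scoped Classical in
/-- The changes of the forms for the rows. -/
noncomputable def zv (x : Fin (n + 1) → L) (I : A → Fin (n + 1) →₀ ℕ) :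
    Ix ι X n A ⊕ A → A → L
  | Sum.inl _ => 0
  | Sum.inr a => Pi.single a (mon x (I a))

theorem vv_mem (hDk : ∀ a I (r : k0), D a I (algebraMap k0 L r) = 0)
    (hEk : ∀ ξ (r : k0), E ξ (algebraMap k0 L r) = 0)
    (hE : ∀ ξ a u, E ξ ((H a).coeff u) = 0)
    (hD : DualE g H dg D fun _ _ => 0) (x : Fin (n + 1) → L) {I : A → Fin (n + 1) →₀ ℕ}
    (hI : ∀ a, mdeg g (I a) = dg a) (r : Ix ι X n A ⊕ A) :
    (vv g dg D E x I r, zv x I r) ∈ PQ g k0 x H := by
  classical
  rcases r with (i | ξ | t) | a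
  · refine ⟨Pi.single i 1, 0, fun _ => rfl, fun s => ?_, fun a => ?_⟩
    · simp only [vv, wv, bl]
      rw [Derivation.zero_apply, add_zero]
      by_cases h : g s = i
      · rw [if_pos h, h, Pi.single_eq_same, one_mul]
      · rw [if_neg h, Pi.single_eq_of_ne h, zero_mul]
    · simp [zv, dF]
  · refine ⟨0, E ξ, hEk ξ, fun s => by simp [vv, wv, ev], fun a => ?_⟩
    rw [← dF_ev (hE ξ a) x]
    simp only [zv, Pi.zero_apply, zero_add]
    rfl
  · simp only [vv, wv, tv, zv]
    split_ifs with ht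
    · have h1 := Ev_mem (H := H) hDk hD x (a := t.1) (I := t.2.1 + Finsupp.single t.2.2.1 1) (by
        rw [mdeg_add, mdeg_single, ht.2])
      have h2 := Ev_mem (H := H) hDk hD x (a := t.1) (I := t.2.1 + Finsupp.single t.2.2.2 1) (by
        rw [mdeg_add, mdeg_single, ← ht.1, ht.2])
      have h3 := Submodule.sub_mem _ (Submodule.smul_mem _ (x t.2.2.2) h1)
        (Submodule.smul_mem _ (x t.2.2.1) h2)
      convert h3 using 1
      refine Prod.ext rfl ?_
      simp only [Prod.snd_sub, Prod.smul_snd]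
      funext b
      rw [Pi.zero_apply, Pi.sub_apply, Pi.smul_apply, Pi.smul_apply, smul_eq_mul, smul_eq_mul]
      by_cases h : t.1 = b
      · subst h
        rw [Pi.single_eq_same, Pi.single_eq_same, mon_add, mon_add, mon_single, mon_single]
        ring
      · rw [Pi.single_eq_of_ne (Ne.symm h), Pi.single_eq_of_ne (Ne.symm h)]
        ring
    · exact zero_mem _
  · exact Ev_mem hDk hD x (hI a)

/-- The values of the forms without rows are independent over the field generated by the
coordinates. -/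
theorem indep_values [CharZero L] (hDk : ∀ a I (r : k0), D a I (algebraMap k0 L r) = 0)
    (hEk : ∀ ξ (r : k0), E ξ (algebraMap k0 L r) = 0)
    (hE : ∀ ξ a u, E ξ ((H a).coeff u) = 0)
    (hD : DualE g H dg D fun _ _ => 0) {x : Fin (n + 1) → L} {I : A → Fin (n + 1) →₀ ℕ}
    (hI : ∀ a, mdeg g (I a) = dg a) (hI0 : ∀ a, mon x (I a) ≠ 0) {l0 : ι → Fin (n + 1)}
    (hg : ∀ i, g (l0 i) = i) (hx0 : ∀ i, x (l0 i) = 1)
    {b : Finset (Ix ι X n A ⊕ A)} {B : Finset A} (hB : ∀ a, a ∈ B ↔ Sum.inr a ∈ b)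
    (hsp : ∀ r, vv g dg D E x I r ∈
        Submodule.span L (Set.range fun i : b => vv g dg D E x I i)) :
    AlgebraicIndependent (IntermediateField.adjoin k0 (Set.range x))
      fun a : {a // a ∉ B} => eval x (H a) := by
  classical
  have key : ∀ a : {a // a ∉ B}, ∃ Δ : Derivation ℤ L L, (∀ r : k0, Δ (algebraMap k0 L r) = 0) ∧
      (∀ s, Δ (x s) = 0) ∧ Δ (eval x (H a)) = mon x (I a) ∧
      ∀ a' : {a // a ∉ B}, a ≠ a' → Δ (eval x (H a')) = 0 := by
    intro a
    obtain ⟨c, hc⟩ := (Submodule.mem_span_range_iff_exists_fun L).1 (hsp (Sum.inr a.1))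
    obtain ⟨f, hf⟩ : ∃ f : Ix ι X n A ⊕ A → (Fin (n + 1) → L) × (A → L), ∀ r, f r =
      (vv g dg D E x I r, zv x I r) := ⟨fun r => (vv g dg D E x I r, zv x I r), fun _ => rfl⟩
    obtain ⟨p, hp⟩ : ∃ p : (Fin (n + 1) → L) × (A → L), p =
      f (Sum.inr a.1) - ∑ i : b, c i • f i.1 := ⟨_, rfl⟩
    simp only [hf] at hp
    have hpm : p ∈ PQ g k0 x H := by
      rw [hp]
      exact Submodule.sub_mem _ (vv_mem hDk hEk hE hD x hI _) (Submodule.sum_mem _ fun i _ =>
        Submodule.smul_mem _ _ (vv_mem hDk hEk hE hD x hI _))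
    have hp1 : p.1 = 0 := by
      rw [hp, Prod.fst_sub, Prod.fst_sum]
      simp only [Prod.smul_fst]
      rw [hc, sub_self]
    have hp2 : ∀ a' : {a // a ∉ B}, p.2 a' = if a = a' then mon x (I a) else 0 := by
      intro a'
      rw [hp, Prod.snd_sub, Prod.snd_sum, Pi.sub_apply, Finset.sum_apply]
      have h1 : ∑ i : b, (c i • (vv g dg D E x I i.1, zv x I i.1)).2 a' = 0 := by
        refine Finset.sum_eq_zero fun i _ => ?_
        obtain ⟨i, hi⟩ := i
        rw [Prod.smul_snd, Pi.smul_apply, smul_eq_mul]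
        rcases i with o | d
        · simp [zv]
        · have hd : d ∈ B := (hB d).2 hi
          have hne : (a' : A) ≠ d := fun h => a'.2 (h ▸ hd)
          simp only [zv]
          rw [Pi.single_eq_of_ne hne, mul_zero]
      rw [h1, sub_zero]
      simp only [zv]
      split_ifs with h
      · rw [← h, Pi.single_eq_same]
      · rw [Pi.single_eq_of_ne fun h' => h (Subtype.ext h'.symm)]
    obtain ⟨c', Δ, hΔ, h1, h2⟩ := hpm
    have hc' : ∀ i, c' i = 0 := by
      intro i
      have h3 := h1 (l0 i)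
      rw [hp1, Pi.zero_apply, hx0, Δ.map_one_eq_zero, mul_one, add_zero, hg] at h3
      exact h3.symm
    have hΔx : ∀ s, Δ (x s) = 0 := by
      intro s
      have h3 := h1 s
      rw [hp1, Pi.zero_apply, hc', zero_mul, zero_add] at h3
      exact h3.symm
    have h4 : ∀ a' : {a // a ∉ B}, Δ (eval x (H a')) = if a = a' then mon x (I a) else 0 := by
      intro a'
      rw [h2, hp2]
      simp only [hΔx]
      have h5 : dF (H a'.1) x (fun _ => 0) = 0 := by simp [dF]
      rw [h5, add_zero]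
    refine ⟨Δ, hΔ, hΔx, ?_, fun a' ha' => ?_⟩
    · rw [h4, if_pos rfl]
    · rw [h4, if_neg ha']
  choose Δ hΔk hΔx hΔ1 hΔ0 using key
  refine algInd_of_der _ _ (fun a => mon x (I a)) (fun a => hI0 a) Δ (fun a r hr => ?_) hΔ1
    fun a a' h => hΔ0 a a' h
  induction hr using IntermediateField.adjoin_induction with
  | mem w hw =>
    obtain ⟨s, rfl⟩ := hw
    exact hΔx a s
  | algebraMap r => exact hΔk a r
  | add u v _ _ hu hv => rw [map_add, hu, hv, add_zero]
  | mul u v _ _ hu hv => rw [(Δ a).leibniz, hu, hv, smul_zero, smul_zero, add_zero]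
  | inv u _ hu => rw [Derivation.leibniz_inv, hu, smul_zero]

end

end Pool.Agent.V7H76.MW
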