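import Pool.Agent.V7H76.MP.Est

/-!
Choice of the rows, if the values of the forms satisfy arbitrary equations.
-/

set_option autoImplicit false

open MvPolynomial FF Pool.Agent.W603.LV Pool.Agent.W603.PV Pool.Agent.TH145.GH
open Pool.Agent.TH145.GC (Ev)
open Pool.Agent.TH145.GE (ev dF_ev)
open Pool.Agent.V7H76.MP

namespace Pool.Agent.V7H76.MW

section

variable {K : Type} [Field K] {n : ℕ} {A X ι : Type} [DecidableEq ι] [Fintype ι]
  {g : Fin (n + 1) → ι} {dg : A → ι → ℕ} {D : A → (Fin (n + 1) →₀ ℕ) → Derivation ℤ K K}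
  {E : X → Derivation ℤ K K}

/-- The choice of the rows. -/
theorem exists_rows {x : Fin (n + 1) → K} {e : ι → Fin (n + 1)}
    (hge : ∀ i, g (e i) = i) (he : ∀ i, x (e i) ≠ 0)
    (hs0 : LinearIndepOn K (vv g dg D E x (base dg e)) (Vert ι X n A)) :
    ∃ b : Finset (Ix ι X n A ⊕ A), (∀ i ∈ Vert ι X n A, i ∈ b) ∧
      LinearIndependent K (fun i : b => vv g dg D E x (base dg e) i) ∧
      (Submodule.span K (Set.range (wv g dg D E x)) ≤
        Submodule.span K (wv g dg D E x '' {o | Sum.inl o ∈ b})) ∧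
      (∀ r, vv g dg D E x (base dg e) r ∈
        Submodule.span K (Set.range fun i : b => vv g dg D E x (base dg e) i)) ∧
      Module.finrank K (Full g dg D E x) = b.card := by
  classical
  obtain ⟨v, hv⟩ : ∃ v, v = vv g dg D E x (base dg e) := ⟨_, rfl⟩
  have hdeg : ∀ a, mdeg g (base dg e a) = dg a := fun a => mdeg_base g dg hge a
  rw [← hv] at hs0
  obtain ⟨b0, hb0, hs0b, hspan0, hb0i⟩ := exists_linearIndepOn_extension hs0
    (t := Set.range Sum.inl) (by
      rintro _ (⟨i, rfl⟩ | ⟨ξ, rfl⟩)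
      · exact ⟨_, rfl⟩
      · exact ⟨_, rfl⟩)
  obtain ⟨b1, -, hb1, hspan1, hb1i⟩ := exists_linearIndepOn_extension hb0i
    (Set.subset_univ _)
  have hb1i' : LinearIndependent K (fun i : b1 => v i) := hb1i
  have hfin : b1.Finite := by
    have := hb1i'.finite
    exact Set.toFinite b1
  obtain ⟨b, hb⟩ : ∃ b : Finset (Ix ι X n A ⊕ A), (b : Set _) = b1 :=
    ⟨hfin.toFinset, hfin.coe_toFinset⟩
  have hbm : ∀ i, i ∈ b ↔ i ∈ b1 := fun i => by rw [← hb, Finset.mem_coe]
  have hbi : LinearIndependent K (fun i : b => v i) := by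
    have h1 : LinearIndepOn K v (b : Set _) := by rw [hb]; exact hb1i
    exact h1
  have h2 : ∀ i, v i ∈ Submodule.span K (Set.range fun i : b => v i) := by
    intro i
    have h3 := hspan1 ⟨i, Set.mem_univ _, rfl⟩
    rw [← hb, Set.image_eq_range] at h3
    exact h3
  refine ⟨b, ?_, ?_, ?_, ?_, ?_⟩
  · intro i hi
    rw [hbm]; exact hb1 (hs0b hi)
  · rw [← hv]; exact hbi
  · rw [Submodule.span_le]
    rintro _ ⟨o, rfl⟩
    have h1 := hspan0 ⟨Sum.inl o, ⟨o, rfl⟩, rfl⟩
    have h2 : v (Sum.inl o) = wv g dg D E x o := by rw [hv]; rfl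
    rw [h2] at h1
    refine Submodule.span_mono ?_ h1
    rintro _ ⟨i, hi, rfl⟩
    obtain ⟨o', rfl⟩ := hb0 hi
    refine ⟨o', ?_, by rw [hv]; rfl⟩
    rw [Set.mem_ofPred_eq, hbm]
    exact hb1 hi
  · rw [← hv]; exact h2
  · have h1 : Full g dg D E x = Submodule.span K (Set.range fun i : b => v i) := by
      apply le_antisymm
      · have h3 : ∀ o, wv g dg D E x o ∈ Submodule.span K (Set.range fun i : b => v i) := by
          intro o
          have := h2 (Sum.inl o)
          rwa [hv] at this ⊢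
        rw [Full, Submodule.span_le]
        rintro _ (⟨o, rfl⟩ | ⟨a, I, hI, rfl⟩)
        · exact h3 o
        · have h4 := Ev_mod dg D E x hge he a _ I hI rfl
          have h5 : Submodule.span K (Set.range (wv g dg D E x)) ≤
              Submodule.span K (Set.range fun i : b => v i) := by
            rw [Submodule.span_le]
            rintro _ ⟨o, rfl⟩
            exact h3 o
          have h6 : Ev D x a (base dg e a) ∈
              Submodule.span K (Set.range fun i : b => v i) := by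
            have := h2 (Sum.inr a)
            rwa [hv] at this ⊢
          have h7 := add_mem (h5 h4) (Submodule.smul_mem _ (mon x I / mon x (base dg e a)) h6)
          rwa [sub_add_cancel] at h7
      · rw [Submodule.span_le]
        rintro _ ⟨i, rfl⟩
        rw [hv]
        exact vv_mem_full x hdeg i.1
    rw [h1, finrank_span_eq_card hbi, Fintype.card_coe]

open scoped Classical in
theorem det_change {x : Fin (n + 1) → K} {e : ι → Fin (n + 1)}
    (hge : ∀ i, g (e i) = i) (he : ∀ i, x (e i) ≠ 0)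
    {b : Finset (Ix ι X n A ⊕ A)} (τ : b → Fin (n + 1)) {B : Finset A}
    (hB : ∀ a, a ∈ B ↔ Sum.inr a ∈ b)
    (hspan : Submodule.span K (Set.range (wv g dg D E x)) ≤
        Submodule.span K (wv g dg D E x '' {o | Sum.inl o ∈ b}))
    (I : A → Fin (n + 1) →₀ ℕ) (hI : ∀ a, mdeg g (I a) = dg a) :
    (mx g dg D E x I b τ).det =
      (∏ a ∈ B, mon x (I a) / mon x (base dg e a)) * (mx g dg D E x (base dg e) b τ).det := by
  have h1 := det_change_aux hge he τ hspan I hI B fun a ha => (hB a).1 ha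
  rw [← h1]
  congr 1
  ext i j
  simp only [mx, Matrix.of_apply]
  obtain ⟨i, hi⟩ := i
  rcases i with o | a
  · rfl
  · simp only [vv]
    rw [if_pos ((hB a).2 hi)]

open scoped Classical in
/-- The determinant, divided by monomials, does not depend on the choice of the variables in the
monomials, and is homogeneous. -/
theorem theta_scale {x x' : Fin (n + 1) → K} {e e1 : ι → Fin (n + 1)}
    (hge : ∀ i, g (e i) = i) (he : ∀ i, x (e i) ≠ 0) (hge1 : ∀ i, g (e1 i) = i)
    {lam : ι → K} (hlam : ∀ i, lam i ≠ 0) (hxx : ∀ s, x s = lam (g s) * x' s)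
    (he1 : ∀ i, x' (e1 i) = 1)
    {b : Finset (Ix ι X n A ⊕ A)} (τ : b → Fin (n + 1)) {B : Finset A}
    (hB : ∀ a, a ∈ B ↔ Sum.inr a ∈ b)
    (hbi : ∀ i, Sum.inl (Sum.inl i) ∈ b)
    (hspan : Submodule.span K (Set.range (wv g dg D E x)) ≤
        Submodule.span K (wv g dg D E x '' {o | Sum.inl o ∈ b})) :
    (∏ i, lam i ^ tot X g b τ i) * (mx g dg D E x' (base dg e1) b τ).det =
      (∏ i, lam i ^ (∑ a ∈ B, dg a i)) *
        ((mx g dg D E x (base dg e) b τ).det / ∏ a ∈ B, mon x (base dg e a)) := by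
  have h1 := det_change hge he τ hB hspan (base dg e1) fun a => mdeg_base g dg hge1 a
  have h2 := det_scale (g := g) (dg := dg) (D := D) (E := E) x' hlam hbi τ (base dg e1)
  have h3 : (fun s => lam (g s) * x' s) = x := by
    funext s
    exact (hxx s).symm
  rw [h3] at h2
  have h4 : ∀ a, mon x (base dg e1 a) = ∏ i, lam i ^ dg a i := by
    intro a
    rw [mon_base]
    refine Finset.prod_congr rfl fun i _ => ?_
    rw [hxx, he1, hge1, mul_one]
  have h5 : ∏ a ∈ B, mon x (base dg e1 a) = ∏ i, lam i ^ (∑ a ∈ B, dg a i) := by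
    simp only [h4]
    rw [Finset.prod_comm]
    exact Finset.prod_congr rfl fun i _ => Finset.prod_pow_eq_pow_sum _ _ _
  rw [← h2, h1, Finset.prod_div_distrib, h5]
  ring

end

section

variable {k K : Type} [Field k] [Field K] [Algebra k K] {n : ℕ} {A X ι : Type} [DecidableEq ι]
  {g : Fin (n + 1) → ι} [Fintype ι] {dg : A → ι → ℕ}
  {D : A → (Fin (n + 1) →₀ ℕ) → Derivation ℤ K K} {E : X → Derivation ℤ K K}

open scoped Classical in
/-- The order of the determinant. -/
theorem ord_theta (P : Place k K) {x : Fin (n + 1) → K} {e : ι → Fin (n + 1)}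
    (hge : ∀ i, g (e i) = i) (he : ∀ i, x (e i) ≠ 0)
    {b : Finset (Ix ι X n A ⊕ A)} (τ : b → Fin (n + 1)) {B : Finset A}
    (hB : ∀ a, a ∈ B ↔ Sum.inr a ∈ b)
    (hbi : ∀ i, Sum.inl (Sum.inl i) ∈ b)
    (hspan : Submodule.span K (Set.range (wv g dg D E x)) ≤
        Submodule.span K (wv g dg D E x '' {o | Sum.inl o ∈ b}))
    (hdet : (mx g dg D E x (base dg e) b τ).det ≠ 0) {N : ℤ}
    (hN : ∀ (x' : Fin (n + 1) → K) (e1 : ι → Fin (n + 1)), (∀ l, Ge P 0 (x' l)) →
      (∀ i, g (e1 i) = i) → (mx g dg D E x' (base dg e1) b τ).det ≠ 0 →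
      N ≤ P.ord (mx g dg D E x' (base dg e1) b τ).det) :
    ∑ i, ((tot X g b τ i : ℤ) - (∑ a ∈ B, dg a i : ℕ)) * pord P (bl g i x) + N ≤
      P.ord ((mx g dg D E x (base dg e) b τ).det / ∏ a ∈ B, mon x (base dg e a)) := by
  obtain ⟨lam, x', e1, hlam, hlo, hxx, hx', hge1, he1⟩ :=
    exists_scaledM (g := g) P fun i => ⟨e i, hge i, he i⟩
  have h1 := theta_scale (D := D) (E := E) (dg := dg) hge he hge1 hlam hxx he1 τ hB hbi hspan
  have hZ : ∏ a ∈ B, mon x (base dg e a) ≠ 0 := by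
    refine Finset.prod_ne_zero_iff.2 fun a _ => ?_
    rw [mon_base]
    exact Finset.prod_ne_zero_iff.2 fun i _ => pow_ne_zero _ (he i)
  obtain ⟨Θ, hΘ⟩ : ∃ Θ, Θ = (mx g dg D E x (base dg e) b τ).det /
    ∏ a ∈ B, mon x (base dg e a) := ⟨_, rfl⟩
  have hΘ0 : Θ ≠ 0 := by
    rw [hΘ]
    exact div_ne_zero hdet hZ
  rw [← hΘ] at h1 ⊢
  have hp : ∀ m : ι → ℕ, ∏ i, lam i ^ m i ≠ 0 := fun m =>
    Finset.prod_ne_zero_iff.2 fun i _ => pow_ne_zero _ (hlam i)
  have hdet' : (mx g dg D E x' (base dg e1) b τ).det ≠ 0 := by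
    intro h0
    rw [h0, mul_zero] at h1
    exact mul_ne_zero (hp _) hΘ0 h1.symm
  have h2 := congrArg P.ord h1
  rw [P.ord_mul (hp _) hdet', P.ord_mul (hp _) hΘ0, ord_prod_zpow P hlam,
    ord_prod_zpow P hlam] at h2
  have h3 := hN x' e1 hx' hge1 hdet'
  simp only [hlo] at h2
  have h4 : ∑ i, ((tot X g b τ i : ℤ) - (∑ a ∈ B, dg a i : ℕ)) * pord P (bl g i x) =
      ∑ i, (tot X g b τ i : ℤ) * pord P (bl g i x) -
        ∑ i, ((∑ a ∈ B, dg a i : ℕ) : ℤ) * pord P (bl g i x) := by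
    rw [← Finset.sum_sub_distrib]
    exact Finset.sum_congr rfl fun i _ => sub_mul _ _ _
  rw [h4]
  linarith

open scoped Classical in
/-- The degrees of the determinant. -/
theorem tot_le [Fintype X] {x : Fin (n + 1) → K}
    {I : A → Fin (n + 1) →₀ ℕ} (hI : ∀ a, mdeg g (I a) = dg a)
    {b : Finset (Ix ι X n A ⊕ A)} (τ : b → Fin (n + 1)) {B : Finset A}
    (hB : ∀ a, a ∈ B ↔ Sum.inr a ∈ b)
    (hbV : ∀ r ∈ Vert ι X n A, r ∈ b) (hdet : (mx g dg D E x I b τ).det ≠ 0) {m : ℕ}
    (hcard : b.card ≤ m + Fintype.card ι) (i : ι) {c : ℕ}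
    (hc : Module.finrank K ((Full g dg D E x).map (blkL K g i)) ≤ c + 1) :
    tot X g b τ i + B.card + Fintype.card X ≤ m + c + 1 := by
  -- the rows
  have h1 : ∑ r ∈ b, rt X g r i + B.card + Fintype.card X ≤ m := by
    obtain ⟨f, hf⟩ : ∃ f : ι ⊕ (X ⊕ B) → Ix ι X n A ⊕ A, f = Sum.elim
      (fun i => Sum.inl (Sum.inl i)) (Sum.elim (fun ξ => Sum.inl (Sum.inr (Sum.inl ξ)))
        fun a => Sum.inr a.1) := ⟨_, rfl⟩
    have hfi : Function.Injective f := by
      rw [hf]
      rintro (i | ξ | ⟨a, ha⟩) (j | η | ⟨c, hc⟩) h <;>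
        simp only [Sum.elim_inl, Sum.elim_inr, Sum.inl.injEq, Sum.inr.injEq, reduceCtorEq,
          Subtype.mk.injEq] at h ⊢ <;> exact h
    obtain ⟨b', hb'⟩ : ∃ b', b' = Finset.univ.image f := ⟨_, rfl⟩
    have h1 : b' ⊆ b := by
      rw [hb']
      intro r hr
      obtain ⟨(i | ξ | a), -, rfl⟩ := Finset.mem_image.1 hr
      · rw [hf]; exact hbV _ (Or.inl ⟨i, rfl⟩)
      · rw [hf]; exact hbV _ (Or.inr ⟨ξ, rfl⟩)
      · rw [hf]; exact (hB a.1).1 a.2
    have h2 : b'.card = Fintype.card ι + (Fintype.card X + B.card) := by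
      rw [hb', Finset.card_image_of_injective _ hfi, Finset.card_univ, Fintype.card_sum,
        Fintype.card_sum, Fintype.card_coe]
    have h3 : ∑ r ∈ b', rt X g r i = 0 := by
      refine Finset.sum_eq_zero fun r hr => ?_
      rw [hb'] at hr
      obtain ⟨(j | ξ | a), -, rfl⟩ := Finset.mem_image.1 hr <;> rw [hf] <;> rfl
    have h4 : ∑ r ∈ b \ b', rt X g r i ≤ (b \ b').card := by
      rw [Finset.card_eq_sum_ones]
      refine Finset.sum_le_sum fun r _ => ?_
      rcases r with (_ | _ | t) | _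
      · exact zero_le_one
      · exact zero_le_one
      · simp only [rt]
        by_cases h : g t.2.2.1 = i
        · rw [← h, Pi.single_eq_same]
        · rw [Pi.single_eq_of_ne (Ne.symm h)]
          exact zero_le_one
      · exact zero_le_one
    have h5 := Finset.sum_sdiff (f := fun r => rt X g r i) h1
    have h6 := Finset.card_sdiff_add_card_eq_card h1
    omega
  have h2 := col_le hI τ hdet i hc
  unfold tot
  omega

end

end Pool.Agent.V7H76.MW
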